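import Pool.Agent.R272.Jerk.Scale

set_option autoImplicit false

namespace Pool.Agent.Results.MP_6d6828_an.NotExact

open Pool.Agent.R272.Jerk

/-- For every step `h > 0`, every `J > 0` and every `ρ ∈ (0, 1/1000]` there are `A > 0` and
positive bounds `wmax` (with `n = 69`) such that the relaxation (R) has a minimizer `(w, t)`
with the positive jerk constraint at index `35` violated, and the optimal value of (P) exceeds
that of (R) by at least some `δ > 0`. -/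
theorem result (h J ρ : ℝ) (hh : 0 < h) (hJ : 0 < J) (h0 : 0 < ρ) (h1 : ρ ≤ 1 / 1000) :
    ∃ (A : ℝ) (wmax w t : ℕ → ℝ), 0 < A ∧ (∀ i, 2 ≤ i → i ≤ 68 → 0 < wmax i) ∧
      RMin 69 h J ρ A wmax w t ∧ h / Real.sqrt (w 35) < Dlt h J ρ w 35 ∧
      ∃ δ : ℝ, 0 < δ ∧ ∀ w' : ℕ → ℝ, PFeas 69 h J ρ A wmax w' →
        ∑ i ∈ Finset.Icc 2 68, t i + δ ≤ ∑ i ∈ Finset.Icc 2 68, h / Real.sqrt (w' i) :=
  main h J ρ hh hJ h0 h1

end Pool.Agent.Results.MP_6d6828_an.NotExact
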